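import Pool.Agent.Helper88.TU.Size
import Pool.Agent.Helper37.PP.HM

/-!
# TU, packet A4: Mertens
-/

set_option autoImplicit false

open Finset Filter Topology

open scoped Classical

namespace Pool.Agent.Helper56.TU

open Pool.Agent.Helper88.PP (pr Rg om Sf SS uu vv ee LA VV QQ cost)
open Pool.Agent.Helper88.TU

theorem a4 : StmtA4 := by
  obtain ⟨C1, hC1, hmp⟩ := Pool.Agent.Helper37.PP.mp
  obtain ⟨E1, hsize⟩ := size
  refine ⟨4 * C1 ^ 2, by positivity, max E1 40, ?_⟩
  intro E z x y hE hS
  obtain ⟨s1, s2, s3, s4, s5, s6, s7, s8, s9, s10, s11, s12, s13, s14⟩ :=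
    hsize E z x y ((le_max_left _ _).trans hE) hS
  obtain ⟨h1, h2, h3, h4, h5⟩ := hS
  have hE40 : (40 : ℝ) ≤ E := by exact_mod_cast (le_max_right _ _).trans hE
  set L := Real.log x with hL
  have hL2 : (1600 : ℝ) ≤ L := by nlinarith
  set l := Real.log L with hl
  have hLpos : 0 < L := by linarith
  have hl2 : 2 ≤ l := by
    rw [hl, Real.le_log_iff_exp_le hLpos]
    have e1 := Real.exp_one_lt_d9
    have e2 : Real.exp 2 = Real.exp 1 * Real.exp 1 := by
      rw [← Real.exp_add]
      norm_num
    have e3 := Real.exp_pos 1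
    rw [e2]
    nlinarith
  have hypos : (0 : ℝ) < y := by linarith
  have hly : Real.log y ≤ 2 * l := by
    have e1 := Real.log_le_log hypos h5
    rw [Real.log_pow] at e1
    exact_mod_cast e1
  have hlzpos : 0 < Real.log z := by linarith
  have hA : om y z ≤ 4 * C1 * l * (E / L) := by
    refine (hmp y z s7 s9).trans ?_
    have e1 : Real.log y / Real.log z ≤ 2 * l * (2 * E / L) := by
      rw [div_le_iff₀ hlzpos]
      have e2 : 1 ≤ (2 * E / L) * Real.log z := by
        rw [div_mul_eq_mul_div, one_le_div hLpos]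
        linarith
      calc Real.log y ≤ 2 * l * 1 := by linarith
        _ ≤ 2 * l * ((2 * E / L) * Real.log z) := by
            exact mul_le_mul_of_nonneg_left e2 (by linarith)
        _ = _ := by ring
    calc C1 * (Real.log y / Real.log z) ≤ C1 * (2 * l * (2 * E / L)) :=
          mul_le_mul_of_nonneg_left e1 hC1.le
      _ = _ := by ring
  set w := ⌊L / 20⌋₊ with hw
  have hw1 : L / 40 ≤ w := by
    have := Nat.lt_floor_add_one (L / 20)
    have : L / 20 < (w : ℝ) + 1 := this
    linarith
  have hw2 : 2 ≤ w := by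
    have : (2 : ℝ) ≤ w := by linarith
    exact_mod_cast this
  have hlw : l / 2 ≤ Real.log w := by
    have e1 : Real.sqrt L ≤ L / 40 := by
      rw [Real.sqrt_le_left (by linarith)]
      nlinarith
    have e2 : l / 2 = Real.log (Real.sqrt L) := by
      rw [Real.log_sqrt hLpos.le]
    rw [e2]
    exact Real.log_le_log (Real.sqrt_pos.2 hLpos) (e1.trans hw1)
  have hB : (Nat.totient (QQ x) : ℝ) / QQ x ≤ C1 / l := by
    have e0 : QQ x = primorial w := rfl
    rw [e0, Pool.Agent.Helper37.PP.totient_primorial w hw2]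
    have e1 := hmp 2 w le_rfl hw2
    have e2 : Real.log ((2 : ℕ) : ℝ) / Real.log w ≤ 2 / l := by
      have e3 : Real.log ((2 : ℕ) : ℝ) ≤ 1 := by
        have := Real.log_two_lt_d9
        push_cast
        linarith
      have e4 : 0 < Real.log w := by linarith
      rw [div_le_div_iff₀ e4 (by linarith)]
      nlinarith
    calc (1 / 2 : ℝ) * om 2 w ≤ (1 / 2) * (C1 * (Real.log ((2 : ℕ) : ℝ) / Real.log w)) := by
          linarith
      _ ≤ (1 / 2) * (C1 * (2 / l)) := by
          have := mul_le_mul_of_nonneg_left e2 hC1.le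
          linarith
      _ = C1 / l := by ring
  have hB0 : 0 ≤ (Nat.totient (QQ x) : ℝ) / QQ x := by positivity
  have hl0 : (0 : ℝ) < l := by linarith
  calc om y z * ((Nat.totient (QQ x) : ℝ) / QQ x)
      ≤ (4 * C1 * l * (E / L)) * (C1 / l) := by
        refine mul_le_mul hA hB hB0 ?_
        have : 0 ≤ (E : ℝ) / L := by positivity
        positivity
    _ = 4 * C1 ^ 2 * (E / L) := by
        field_simp

end Pool.Agent.Helper56.TU
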